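import Pool.Agent.H624.WS.Stm

/-!
# Assembly of the positive part
-/

set_option autoImplicit false

open MeasureTheory Set Filter Topology
open scoped ENNReal

noncomputable section

namespace Pool.Agent.H624.WS

theorem meas_of_approx {Ω : Type} {m m0 : MeasurableSpace Ω} (hm : m ≤ m0) (μ : Measure[m0] Ω)
    [IsFiniteMeasure μ] (f : Ω → ℝ) (hf : Integrable f μ)
    (h : ∀ ε : ℝ, 0 < ε → ∃ g : Ω → ℝ, Measurable[m] g ∧ Integrable g μ ∧
      ∫ ω, |f ω - g ω| ∂μ < ε) :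
    ∃ g : Ω → ℝ, Measurable[m] g ∧ f =ᵐ[μ] g := by
  refine ⟨μ[f | m], stronglyMeasurable_condExp.measurable, ?_⟩
  have h0 : ∫ ω, |f ω - (μ[f | m]) ω| ∂μ = 0 := by
    refine le_antisymm (le_of_forall_pos_lt_add fun ε hε => ?_)
      (integral_nonneg fun _ => abs_nonneg _)
    obtain ⟨g, hg, hgi, hfg⟩ := h (ε / 2) (by positivity)
    have h1 : μ[g | m] = g := condExp_of_stronglyMeasurable hm hg.stronglyMeasurable hgi
    have h2 : ∫ ω, |g ω - (μ[f | m]) ω| ∂μ ≤ ∫ ω, |f ω - g ω| ∂μ := by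
      have h3 : (fun ω => g ω - (μ[f | m]) ω) =ᵐ[μ] μ[g - f | m] := by
        have h4 := condExp_sub hgi hf m
        rw [h1] at h4
        filter_upwards [h4] with ω hω
        rw [hω]; rfl
      calc ∫ ω, |g ω - (μ[f | m]) ω| ∂μ = ∫ ω, |(μ[g - f | m]) ω| ∂μ := by
            refine integral_congr_ae ?_
            filter_upwards [h3] with ω hω
            rw [hω]
        _ ≤ ∫ ω, |(g - f) ω| ∂μ := integral_abs_condExp_le _
        _ = ∫ ω, |f ω - g ω| ∂μ := by
            refine integral_congr_ae (Eventually.of_forall fun ω => ?_)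
            simp only [Pi.sub_apply]
            rw [abs_sub_comm]
    have hi1 : Integrable (fun ω => |f ω - g ω|) μ := (hf.sub hgi).abs
    have hi2 : Integrable (fun ω => |g ω - (μ[f | m]) ω|) μ := (hgi.sub integrable_condExp).abs
    calc ∫ ω, |f ω - (μ[f | m]) ω| ∂μ
        ≤ ∫ ω, (|f ω - g ω| + |g ω - (μ[f | m]) ω|) ∂μ := by
          refine integral_mono (hf.sub integrable_condExp).abs (hi1.add hi2) fun ω => ?_
          exact abs_sub_le _ _ _
      _ = ∫ ω, |f ω - g ω| ∂μ + ∫ ω, |g ω - (μ[f | m]) ω| ∂μ := integral_add hi1 hi2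
      _ < 0 + ε := by linarith
  have h5 := (integral_eq_zero_iff_of_nonneg (fun _ => abs_nonneg _)
    (hf.sub integrable_condExp).abs).1 h0
  filter_upwards [h5] with ω hω
  have : |f ω - (μ[f | m]) ω| = 0 := hω
  linarith [abs_eq_zero.1 this]

section ind

variable {Ω X : Type} [MeasurableSpace Ω] {μ : Measure Ω} [IsFiniteMeasure μ]
  [NormedAddCommGroup X] [NormedSpace ℝ X] {p : ℝ≥0∞}

theorem ind_add {s : Set Ω} (hs : MeasurableSet s) (x y : X) :
    indicatorConstLp p hs (measure_ne_top μ s) (x + y) =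
      indicatorConstLp p hs (measure_ne_top μ s) x +
        indicatorConstLp p hs (measure_ne_top μ s) y := by
  exact indicatorConstLp_add.symm

theorem ind_smul {s : Set Ω} (hs : MeasurableSet s) (c : ℝ) (x : X) :
    indicatorConstLp p hs (measure_ne_top μ s) (c • x) =
      c • indicatorConstLp p hs (measure_ne_top μ s) x := by
  ext1
  refine indicatorConstLp_coeFn.trans ?_
  refine EventuallyEq.trans ?_ (Lp.coeFn_smul c _).symm
  filter_upwards [indicatorConstLp_coeFn (p := p) (hs := hs) (hμs := measure_ne_top μ s) (c := x)]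
    with ω hω
  rw [Pi.smul_apply, hω]
  by_cases h : ω ∈ s <;> simp [h]

end ind

theorem sFIN (hSPL : S_SPL) (hHREG : S_HREG) (hLW : S_LW) (hVAR : S_VAR) (hALG : S_ALG)
    (hCONV : S_CONV) (hSEL : S_SEL) : S_FIN := by
  intro hω heq Ω m0 μ _ X _ _ _ p _ hp hX φ hφ
  set κ := distributivityNumber with hκ
  have hreg : κ.IsRegular := hHREG hω
  have hκ0 : Cardinal.aleph0 < κ := Cardinal.aleph0_lt_aleph_one.trans hω
  -- no `ℓ¹(κ)`
  have hne : {c | ∃ 𝒮 : Set (Set ℕ), Cardinal.mk 𝒮 = c ∧ IsSplitting 𝒮}.Nonempty := by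
    rw [Set.nonempty_iff_ne_empty]
    intro h0
    have : splittingNumber = 0 := by
      rw [splittingNumber, h0]; exact Cardinal.sInf_empty
    rw [heq, this] at hκ0
    exact absurd hκ0 (not_lt.2 zero_le')
  obtain ⟨𝒮, h𝒮, hspl⟩ := csInf_mem hne
  have h𝒮κ : Cardinal.mk 𝒮 = κ := h𝒮.trans heq.symm
  have hL1 : ¬ HasL1 κ X := fun h => hSPL 𝒮 hspl X (h𝒮κ ▸ h) hX
  -- representations
  choose t w hR using fun n => hVAR Ω μ X p hp (φ n) (hφ n)
  choose X₀ hX₀ hX₀' using fun n => hLW κ hreg hω Ω μ X p (φ n) (t n) (w n) (hR n) hL1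
  have ht : ∀ n x, Measurable (t n x) := fun n x => (hR n).1 x
  have hti : ∀ n x, Integrable (t n x) μ := fun n x =>
    Integrable.mono' ((hR n).2.2.2.1.const_mul ‖x‖) (ht n x).aestronglyMeasurable
      (by filter_upwards [(hR n).2.2.2.2.2.1 x] with ω hω; simpa using hω)
  -- the generating sets
  let X₁ : Set X := ⋃ n, X₀ n
  have hX₁ : Cardinal.mk X₁ < κ :=
    (Cardinal.card_iUnion_lt_iff_forall_of_isRegular hreg (by simpa using hκ0)).2 hX₀
  let G : (ℕ × X₁ × ℚ) → Set Ω := fun a => {ω | t a.1 a.2.1 ω < (a.2.2 : ℝ)}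
  let 𝒞 : Set (Set Ω) := range G
  have h𝒞 : Cardinal.mk 𝒞 < κ := by
    refine Cardinal.mk_range_le.trans_lt ?_
    rw [Cardinal.mk_prod, Cardinal.mk_prod]
    simp only [Cardinal.lift_id, Cardinal.mk_nat, Cardinal.mkRat]
    exact Cardinal.mul_lt_of_lt hκ0.le hκ0 (Cardinal.mul_lt_of_lt hκ0.le hX₁ hκ0)
  have h𝒞m : ∀ s ∈ 𝒞, MeasurableSet s := by
    rintro _ ⟨a, rfl⟩
    exact (ht _ _) measurableSet_Iio
  obtain ⟨𝒜, h𝒜, h𝒜m, h𝒜a⟩ := hALG κ hκ0 Ω μ 𝒞 h𝒞 h𝒞m
  -- the functionals on `X`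
  have hb : ∀ (a : Set Ω) (ha : MeasurableSet[m0] a) (x : X),
      ‖(indicatorConstLp p ha (measure_ne_top μ a) x : Lp X p μ)‖ ≤ ‖x‖ := by
    intro a ha x
    have hp0 : p ≠ 0 := (zero_lt_one.trans_le Fact.out).ne'
    rw [norm_indicatorConstLp hp0 hp]
    refine mul_le_of_le_one_right (norm_nonneg _) ?_
    refine Real.rpow_le_one measureReal_nonneg ?_ (by positivity)
    exact measureReal_le_one
  let Y : 𝒜 → ℕ → (X →L[ℝ] ℝ) := fun a n =>
    LinearMap.mkContinuous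
      { toFun := fun x => φ n (indicatorConstLp p (h𝒜m a a.2) (measure_ne_top μ (a : Set Ω)) x)
        map_add' := fun x y => by
          rw [ind_add, map_add]
        map_smul' := fun c x => by
          rw [ind_smul, map_smul]; rfl } 1 (fun x => by
          rw [one_mul]
          exact ((φ n).le_of_opNorm_le (hφ n) _).trans (by rw [one_mul]; exact hb _ _ _))
  have hY : ∀ a n, ‖Y a n‖ ≤ 1 := fun a n => LinearMap.mkContinuous_norm_le _ zero_le_one _
  obtain ⟨k, hk, hkc⟩ := hSEL X hX 𝒜 h𝒜 Y hY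
  let m : MeasurableSpace Ω := MeasurableSpace.generateFrom 𝒞
  have hm : m ≤ m0 := MeasurableSpace.generateFrom_le h𝒞m
  have htm : ∀ n, ∀ x ∈ X₁, Measurable[m] (t n x) := by
    intro n x hx
    refine measurable_of_Iio fun c => ?_
    have : t n x ⁻¹' Iio c = ⋃ q : {q : ℚ // (q : ℝ) ≤ c}, {ω | t n x ω < ((q : ℚ) : ℝ)} := by
      ext ω
      simp only [mem_preimage, mem_Iio, mem_iUnion, mem_setOf_eq]
      constructor
      · intro h
        obtain ⟨q, h1, h2⟩ := exists_rat_btwn h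
        exact ⟨⟨q, h2.le⟩, h1⟩
      · rintro ⟨q, hq⟩
        exact hq.trans_le q.2
    rw [this]
    refine MeasurableSet.iUnion fun q => ?_
    exact MeasurableSpace.measurableSet_generateFrom ⟨(n, ⟨x, hx⟩, q.1), rfl⟩
  have htm' : ∀ n x, ∃ g : Ω → ℝ, Measurable[m] g ∧ t n x =ᵐ[μ] g := by
    intro n x
    refine meas_of_approx hm μ (t n x) (hti n x) fun ε hε => ?_
    obtain ⟨x', hx', h⟩ := hX₀' n x ε hε
    exact ⟨t n x', htm n x' (mem_iUnion.2 ⟨n, hx'⟩), hti n x', h⟩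
  obtain ⟨ψ, hψ, hψc⟩ := @hCONV Ω m0 μ _ X _ _ p _ hp φ hφ t w hR m hm htm' 𝒜 h𝒜m h𝒜a k hk
    (fun a ha haA x => hkc ⟨a, haA⟩ x)
  exact ⟨ψ, hψ, k, hk, hψc⟩

end Pool.Agent.H624.WS
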