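import Mathlib

/-!
# MP_33144e_an : weak* sequential compactness of dual balls of Lebesgue-Bochner spaces

Definitions and exact statements of the pieces.
-/

set_option autoImplicit false

open MeasureTheory Set Filter Topology
open scoped ENNReal

noncomputable section

namespace Pool.Agent.H624.WS

/-- Every sequence in the closed unit ball of the dual has a weak* convergent subsequence. -/
def DualBallSeqCompact (Y : Type) [NormedAddCommGroup Y] [NormedSpace ℝ Y] : Prop :=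
  ∀ φ : ℕ → (Y →L[ℝ] ℝ), (∀ n, ‖φ n‖ ≤ 1) →
    ∃ ψ : Y →L[ℝ] ℝ, ‖ψ‖ ≤ 1 ∧ ∃ k : ℕ → ℕ, StrictMono k ∧
      ∀ x : Y, Tendsto (fun n => φ (k n) x) atTop (𝓝 (ψ x))

/-- `S` splits `M`. -/
def Splits (S M : Set ℕ) : Prop := (M ∩ S).Infinite ∧ (M \ S).Infinite

/-- A splitting family. -/
def IsSplitting (𝒮 : Set (Set ℕ)) : Prop := ∀ M : Set ℕ, M.Infinite → ∃ S ∈ 𝒮, Splits S M

/-- The splitting number `𝔰`. -/
def splittingNumber : Cardinal.{0} :=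
  sInf {κ | ∃ 𝒮 : Set (Set ℕ), Cardinal.mk 𝒮 = κ ∧ IsSplitting 𝒮}

/-- An open dense family of infinite subsets of `ℕ` (for almost inclusion). -/
def OpenDense (D : Set (Set ℕ)) : Prop :=
  (∀ M ∈ D, M.Infinite) ∧
  (∀ M ∈ D, ∀ N : Set ℕ, N.Infinite → (N \ M).Finite → N ∈ D) ∧
  ∀ M : Set ℕ, M.Infinite → ∃ N ∈ D, N ⊆ M

/-- The distributivity number `𝔥`: the least number of open dense families with empty
intersection. -/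
def distributivityNumber : Cardinal.{0} :=
  sInf {κ | ∃ 𝒟 : Set (Set (Set ℕ)), Cardinal.mk 𝒟 = κ ∧ (∀ D ∈ 𝒟, OpenDense D) ∧ ⋂₀ 𝒟 = ∅}

/-- Martin's axiom: every ccc poset has, for every family of fewer than continuum many dense sets,
a filter meeting all of them. -/
def MartinAxiom : Prop := ∀ (P : Type) [PartialOrder P] [Nonempty P],
    (∀ S : Set P, (∀ p ∈ S, ∀ q ∈ S, p ≠ q → ¬ ∃ r, r ≤ p ∧ r ≤ q) → S.Countable) →
    ∀ 𝓓 : Set (Set P), Cardinal.mk 𝓓 < Cardinal.continuum → (∀ D ∈ 𝓓, ∀ p, ∃ q ∈ D, q ≤ p) →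
    ∃ G : Set P, G.Nonempty ∧ (∀ p ∈ G, ∀ q, p ≤ q → q ∈ G) ∧
      (∀ p ∈ G, ∀ q ∈ G, ∃ r ∈ G, r ≤ p ∧ r ≤ q) ∧ ∀ D ∈ 𝓓, (D ∩ G).Nonempty

/-- The space `X` contains `κ` unit vectors equivalent to the basis of `ℓ¹(κ)`. -/
def HasL1 (κ : Cardinal.{0}) (X : Type) [NormedAddCommGroup X] [NormedSpace ℝ X] : Prop :=
  ∃ (A : Type) (y : A → X) (δ : ℝ), Cardinal.mk A = κ ∧ 0 < δ ∧ (∀ i, ‖y i‖ ≤ 1) ∧
    ∀ (J : Finset A) (a : A → ℝ), δ * ∑ i ∈ J, |a i| ≤ ‖∑ i ∈ J, a i • y i‖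

/-- (SPL) -/
def S_SPL : Prop := ∀ (𝒮 : Set (Set ℕ)), IsSplitting 𝒮 →
    ∀ (X : Type) [NormedAddCommGroup X] [NormedSpace ℝ X], HasL1 (Cardinal.mk 𝒮) X →
    ¬ DualBallSeqCompact X

/-- (HREG) -/
def S_HREG : Prop := Cardinal.aleph 1 < distributivityNumber → distributivityNumber.IsRegular

/-- (MA) -/
def S_MA : Prop := MartinAxiom → Cardinal.aleph.{0} 1 < Cardinal.continuum →
    Cardinal.aleph 1 < distributivityNumber ∧ distributivityNumber = splittingNumber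

/-- (L) A bounded operator into `L^∞(ν)` (in the form of a linear map into `L¹(ν)`) defined on a
space without `ℓ¹(κ)` has range of `L¹`-density less than `κ`, `κ > ℵ₁` regular. -/
def S_L : Prop := ∀ (κ : Cardinal.{0}), κ.IsRegular → Cardinal.aleph 1 < κ →
    ∀ (Ω : Type) [MeasurableSpace Ω] (ν : Measure Ω) [IsFiniteMeasure ν]
      (X : Type) [NormedAddCommGroup X] [NormedSpace ℝ X] (T : X →ₗ[ℝ] Lp ℝ 1 ν),
    (∀ x, ∀ᵐ ω ∂ν, |T x ω| ≤ ‖x‖) → ¬ HasL1 κ X →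
    ∃ X₀ : Set X, Cardinal.mk X₀ < κ ∧ ∀ x : X, ∀ ε : ℝ, 0 < ε → ∃ x' ∈ X₀, ‖T x - T x'‖ < ε

/-- The data of a functional `Λ` on `L^p(μ, X)`: a density `t x` for each vector `x` and a common
integrable bound `w`. -/
def Rep {Ω : Type} [MeasurableSpace Ω] (μ : Measure Ω) [IsFiniteMeasure μ] {X : Type}
    [NormedAddCommGroup X] [NormedSpace ℝ X] (p : ℝ≥0∞) [Fact (1 ≤ p)]
    (Λ : Lp X p μ →L[ℝ] ℝ) (t : X → Ω → ℝ) (w : Ω → ℝ) : Prop :=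
  (∀ x, Measurable (t x)) ∧ Measurable w ∧ (∀ ω, 0 ≤ w ω) ∧ Integrable w μ ∧ ∫ ω, w ω ∂μ ≤ 1 ∧
  (∀ x, ∀ᵐ ω ∂μ, |t x ω| ≤ ‖x‖ * w ω) ∧
  ∀ (x : X) (s : Set Ω) (hs : MeasurableSet s),
    Λ (indicatorConstLp p hs (measure_ne_top μ s) x) = ∫ ω in s, t x ω ∂μ

/-- (DENS) densities of the scalar measures -/
def S_DENS : Prop := ∀ (Ω : Type) [MeasurableSpace Ω] (μ : Measure Ω) [IsProbabilityMeasure μ]
      (X : Type) [NormedAddCommGroup X] [NormedSpace ℝ X] (p : ℝ≥0∞) [Fact (1 ≤ p)], p ≠ ∞ →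
    ∀ Λ : Lp X p μ →L[ℝ] ℝ, ‖Λ‖ ≤ 1 →
    ∃ t : X → Ω → ℝ, (∀ x, Measurable (t x)) ∧ (∀ x, Integrable (t x) μ) ∧
      (∀ (x : X) (s : Set Ω) (hs : MeasurableSet s),
        Λ (indicatorConstLp p hs (measure_ne_top μ s) x) = ∫ ω in s, t x ω ∂μ) ∧
      ∀ F : Finset X, (∀ x ∈ F, ‖x‖ ≤ 1) → ∀ h : Ω → ℝ, Measurable h →
        (∀ ω, ∃ x ∈ F, h ω ≤ |t x ω|) → (∀ ω, 0 ≤ h ω) → ∫ ω, h ω ∂μ ≤ 1

/-- (VAR) the representation of functionals -/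
def S_VAR : Prop := ∀ (Ω : Type) [MeasurableSpace Ω] (μ : Measure Ω) [IsProbabilityMeasure μ]
      (X : Type) [NormedAddCommGroup X] [NormedSpace ℝ X] (p : ℝ≥0∞) [Fact (1 ≤ p)], p ≠ ∞ →
    ∀ Λ : Lp X p μ →L[ℝ] ℝ, ‖Λ‖ ≤ 1 → ∃ t w, Rep μ p Λ t w

/-- (LW) from the measure `w μ` back to `μ` -/
def S_LW : Prop := ∀ (κ : Cardinal.{0}), κ.IsRegular → Cardinal.aleph 1 < κ →
    ∀ (Ω : Type) [MeasurableSpace Ω] (μ : Measure Ω) [IsProbabilityMeasure μ]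
      (X : Type) [NormedAddCommGroup X] [NormedSpace ℝ X] (p : ℝ≥0∞) [Fact (1 ≤ p)]
      (Λ : Lp X p μ →L[ℝ] ℝ) (t : X → Ω → ℝ) (w : Ω → ℝ), Rep μ p Λ t w → ¬ HasL1 κ X →
    ∃ X₀ : Set X, Cardinal.mk X₀ < κ ∧ ∀ x : X, ∀ ε : ℝ, 0 < ε → ∃ x' ∈ X₀,
      ∫ ω, |t x ω - t x' ω| ∂μ < ε

/-- (ALG) A family of fewer than `κ` measurable sets: the generated sigma-algebra is approximated
by fewer than `κ` of its members. -/
def S_ALG : Prop := ∀ (κ : Cardinal.{0}), Cardinal.aleph0 < κ →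
    ∀ (Ω : Type) [MeasurableSpace Ω] (μ : Measure Ω) [IsFiniteMeasure μ] (𝒞 : Set (Set Ω)),
    Cardinal.mk 𝒞 < κ → (∀ s ∈ 𝒞, MeasurableSet s) →
    ∃ 𝒜 : Set (Set Ω), Cardinal.mk 𝒜 < κ ∧ (∀ s ∈ 𝒜, MeasurableSet s) ∧
      ∀ s : Set Ω, MeasurableSet[MeasurableSpace.generateFrom 𝒞] s →
        ∀ ε : ℝ, 0 < ε → ∃ a ∈ 𝒜, μ.real (symmDiff s a) < ε

/-- (CONV) The convergence of a sequence of functionals, from fewer than `κ` sets to all sets. -/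
def S_CONV : Prop := ∀ (Ω : Type) [m0 : MeasurableSpace Ω] (μ : Measure Ω)
      [IsProbabilityMeasure μ] (X : Type) [NormedAddCommGroup X] [NormedSpace ℝ X] (p : ℝ≥0∞)
      [Fact (1 ≤ p)], p ≠ ∞ →
    ∀ (Λ : ℕ → (Lp X p μ →L[ℝ] ℝ)), (∀ n, ‖Λ n‖ ≤ 1) →
    ∀ (t : ℕ → X → Ω → ℝ) (w : ℕ → Ω → ℝ), (∀ n, Rep μ p (Λ n) (t n) (w n)) →
    ∀ (m : MeasurableSpace Ω), m ≤ m0 →
    (∀ n x, ∃ g : Ω → ℝ, Measurable[m] g ∧ t n x =ᵐ[μ] g) →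
    ∀ (𝒜 : Set (Set Ω)), (∀ s ∈ 𝒜, MeasurableSet[m0] s) →
    (∀ s : Set Ω, MeasurableSet[m] s → ∀ ε : ℝ, 0 < ε → ∃ a ∈ 𝒜, μ.real (symmDiff s a) < ε) →
    ∀ k : ℕ → ℕ, StrictMono k →
    (∀ (a : Set Ω) (ha : MeasurableSet[m0] a), a ∈ 𝒜 → ∀ x : X, ∃ l : ℝ,
      Tendsto (fun n => Λ (k n) (indicatorConstLp p ha (measure_ne_top μ a) x)) atTop (𝓝 l)) →
    ∃ ψ : Lp X p μ →L[ℝ] ℝ, ‖ψ‖ ≤ 1 ∧
      ∀ f : Lp X p μ, Tendsto (fun n => Λ (k n) f) atTop (𝓝 (ψ f))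

/-- (SEL) Choosing a subsequence for fewer than `𝔥` sequences of functionals on a space with weak*
sequentially compact dual ball. -/
def S_SEL : Prop := ∀ (X : Type) [NormedAddCommGroup X] [NormedSpace ℝ X], DualBallSeqCompact X →
    ∀ (I : Type), Cardinal.mk I < distributivityNumber → ∀ y : I → ℕ → (X →L[ℝ] ℝ),
    (∀ i n, ‖y i n‖ ≤ 1) →
    ∃ k : ℕ → ℕ, StrictMono k ∧ ∀ i x, ∃ l : ℝ, Tendsto (fun n => y i (k n) x) atTop (𝓝 l)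

/-- The positive answer. -/
def Positive : Prop := ∀ (Ω : Type) [MeasurableSpace Ω] (μ : Measure Ω) [IsProbabilityMeasure μ]
      (X : Type) [NormedAddCommGroup X] [NormedSpace ℝ X] [CompleteSpace X] (p : ℝ≥0∞)
      [Fact (1 ≤ p)], p ≠ ∞ → DualBallSeqCompact X → DualBallSeqCompact (Lp X p μ)

/-- (FIN) the assembly -/
def S_FIN : Prop := Cardinal.aleph 1 < distributivityNumber →
    distributivityNumber = splittingNumber → Positive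

end Pool.Agent.H624.WS
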